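import Pool.Agent.QSX.StmtsF

/-!
# Squad QSX, row CHV
-/

set_option autoImplicit false

namespace Pool.Agent.QSX.H15

open Matrix Finset

theorem su_e {X : Dat} (hX : X.RSplit) (l : hX.ι) (x : ℝ) : SU (x • hX.e l) := by
  have h : hX.e l ∈ X.n := by
    rw [← hX.span_e]
    exact Submodule.subset_span ⟨l, rfl⟩
  exact (X.su _ h).smul x

/-- The roots `rt l`, `rt l'` are linearly independent. -/
theorem indep {X : Dat} (hX : X.RSplit) {l l' : hX.ι} (hne : l ≠ l') {α β : ℝ}
    (h : ∀ a, α * hX.rt l a + β * hX.rt l' a = 0) : α = 0 ∧ β = 0 := by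
  have h1 : α = 0 := by
    by_contra hα
    apply hX.nonprop l l' hne (-β / α)
    apply LinearMap.ext
    intro a
    rw [LinearMap.smul_apply, smul_eq_mul]
    have := h a
    field_simp
    linarith
  refine ⟨h1, ?_⟩
  obtain ⟨a, ha⟩ := hX.pos
  have h2 := h a
  rw [h1, zero_mul, zero_add] at h2
  rcases mul_eq_zero.1 h2 with h3 | h3
  · exact h3
  · exact absurd h3 (ha l').ne'

theorem list_ex (hC : ChcStmt) (hD : ChdStmt) {X : Dat} (hX : X.RSplit) (l l' : hX.ι)
    (hne : l ≠ l') : ∃ L : List (hX.ι × ℕ × ℕ × ℚ),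
      (∀ t ∈ L, 1 ≤ t.2.1 ∧ 1 ≤ t.2.2.1 ∧
        hX.rt t.1 = (t.2.1 : ℝ) • hX.rt l + (t.2.2.1 : ℝ) • hX.rt l') ∧
      (L.map fun t => t.1).Nodup ∧
      ∀ x y : ℝ, ue (x • hX.e l) * ue (y • hX.e l') * (ue (x • hX.e l))⁻¹ * (ue (y • hX.e l'))⁻¹ =
        (L.map fun t => ue (((t.2.2.2 : ℝ) * x ^ t.2.1 * y ^ t.2.2.1) • hX.e t.1)).prod := by
  obtain ⟨G, hG, hGe⟩ := (hC X hX l l').2.2
  obtain ⟨L, h1, h2, h3⟩ := hD X hX l l' hne G hG
  refine ⟨L, h1, h2, fun x y => ?_⟩
  apply Units.ext
  rw [Units.val_mul, Units.val_mul, Units.val_mul, ue_val (su_e hX l x), ue_val (su_e hX l' y),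
    ue_inv_val (su_e hX l x), ue_inv_val (su_e hX l' y), ← hGe, h3 x y]
  have h4 := map_list_prod (Units.coeHom (Matrix (Fin X.m) (Fin X.m) ℝ))
    (L.map fun t => ue (((t.2.2.2 : ℝ) * x ^ t.2.1 * y ^ t.2.2.1) • hX.e t.1))
  rw [Units.coeHom_apply, List.map_map] at h4
  rw [h4]
  congr 1
  apply List.map_congr_left
  intro t _
  rw [Function.comp_apply, Units.coeHom_apply, ue_val (su_e hX t.1 _)]

/-- The components of the roots in a commutator. -/
theorem comp_eq {X : Dat} (hX : X.RSplit) {l l' t : hX.ι} (hne : l ≠ l') {p q : ℕ} (hp : 1 ≤ p)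
    (hq : 1 ≤ q) (h : hX.rt t = (p : ℝ) • hX.rt l + (q : ℝ) • hX.rt l') :
    hX.comp t = hX.comp l ∧ hX.comp t = hX.comp l' := by
  classical
  have key : ∀ κ : hX.J → ℝ, (∀ j, 0 < κ j) →
      κ (hX.comp t) = κ (hX.comp l) ∧ κ (hX.comp t) = κ (hX.comp l') := by
    intro κ hκ
    obtain ⟨S, hS⟩ := hX.scal κ hκ
    have h1 : ∀ a, ((κ (hX.comp t) - κ (hX.comp l)) * p) * hX.rt l a +
        ((κ (hX.comp t) - κ (hX.comp l')) * q) * hX.rt l' a = 0 := by
      intro a
      have e1 := hS t a
      have e2 : ∀ b, hX.rt t b = p * hX.rt l b + q * hX.rt l' b := by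
        intro b
        rw [h, LinearMap.add_apply, LinearMap.smul_apply, LinearMap.smul_apply, smul_eq_mul,
          smul_eq_mul]
      rw [e2 a, e2 (S a), hS l a, hS l' a] at e1
      linarith
    obtain ⟨h2, h3⟩ := indep hX hne h1
    have hp' : (p : ℝ) ≠ 0 := by
      have : (0 : ℝ) < p := by exact_mod_cast hp
      exact this.ne'
    have hq' : (q : ℝ) ≠ 0 := by
      have : (0 : ℝ) < q := by exact_mod_cast hq
      exact this.ne'
    constructor
    · have := (mul_eq_zero.1 h2).resolve_right hp'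
      linarith
    · have := (mul_eq_zero.1 h3).resolve_right hq'
      linarith
  have hpos : ∀ j₀ : hX.J, ∀ j, (0 : ℝ) < (fun j => if j = j₀ then (2 : ℝ) else 1) j := by
    intro j₀ j
    simp only
    split_ifs <;> norm_num
  constructor
  · have h1 := (key _ (hpos (hX.comp l))).1
    simp only [if_true] at h1
    by_contra hc
    rw [if_neg hc] at h1
    norm_num at h1
  · have h1 := (key _ (hpos (hX.comp l'))).2
    simp only [if_true] at h1
    by_contra hc
    rw [if_neg hc] at h1
    norm_num at h1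

/-- **CHV**. -/
theorem chv (hC : ChcStmt) (hD : ChdStmt) : ChvStmt := by
  rintro X ⟨hX⟩
  have hL : ∀ l l' : hX.ι, ∃ L : List (hX.ι × ℕ × ℕ × ℚ),
      (l = l' → L = []) ∧
      (∀ t ∈ L, 1 ≤ t.2.1 ∧ 1 ≤ t.2.2.1 ∧
        hX.rt t.1 = (t.2.1 : ℝ) • hX.rt l + (t.2.2.1 : ℝ) • hX.rt l') ∧
      (L.map fun t => t.1).Nodup ∧
      (l ≠ l' → ∀ x y : ℝ,
        ue (x • hX.e l) * ue (y • hX.e l') * (ue (x • hX.e l))⁻¹ * (ue (y • hX.e l'))⁻¹ =
        (L.map fun t => ue (((t.2.2.2 : ℝ) * x ^ t.2.1 * y ^ t.2.2.1) • hX.e t.1)).prod) := by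
    intro l l'
    by_cases h : l = l'
    · refine ⟨[], fun _ => rfl, fun t ht => ?_, ?_, fun hne => absurd h hne⟩
      · exact absurd ht List.not_mem_nil
      · exact List.nodup_nil
    · obtain ⟨L, h1, h2, h3⟩ := list_ex hC hD hX l l' h
      exact ⟨L, fun he => absurd he h, h1, h2, fun _ => h3⟩
  choose L hL0 hL1 hL2 hL3 using hL
  exact ⟨{ ι := hX.ι
           fin := hX.fin
           dec := hX.dec
           e := hX.e
           span_e := hX.span_e
           lin := hX.lin
           rt := hX.rt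
           wt := hX.wt
           pos := hX.pos
           sep := hX.sep
           nonprop := hX.nonprop
           L := L
           L_rt := hL1
           L_nodup := hL2
           com := hL3
           J := hX.J
           comp := hX.comp
           top := hX.top
           comp_top := hX.comp_top
           L_comp := by
             intro l l' t ht
             have hne : l ≠ l' := by
               intro he
               rw [hL0 l l' he] at ht
               exact absurd ht List.not_mem_nil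
             obtain ⟨hp, hq, hr⟩ := hL1 l l' t ht
             exact comp_eq hX hne hp hq hr
           climb := hX.climb
           scal := hX.scal }⟩

end Pool.Agent.QSX.H15
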