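import Pool.Agent.QSX.StmtsM

/-!
# Squad QSX, row FSV
-/

set_option autoImplicit false

namespace Pool.Agent.QSX.H15

theorem map_ker_le (G : Type) [Group G] (k : ℕ) :
    (derivedSeries (Abelianization.of : G →* Abelianization G).ker k).map
      (Abelianization.of : G →* Abelianization G).ker.subtype ≤ derivedSeries G (k + 1) := by
  induction k with
  | zero =>
    rw [derivedSeries_zero, zero_add, derivedSeries_one, ← MonoidHom.range_eq_map,
      Subgroup.range_subtype, Abelianization.ker_of]
  | succ k ih =>
    rw [derivedSeries_succ, derivedSeries_succ, Subgroup.map_commutator]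
    exact Subgroup.commutator_mono ih ih

theorem fam_of_series (hcm : FcmStmt) (hex : FexStmt) (n : ℕ) :
    ∀ (G : Type) [Group G], derivedSeries G n = ⊥ → HasFam G := by
  induction n with
  | zero =>
    intro G _ h H δ hδ
    rw [derivedSeries_zero] at h
    have hs : ∀ g : G, g = 1 := fun g => by
      have : g ∈ (⊤ : Subgroup G) := Subgroup.mem_top g
      rw [h, Subgroup.mem_bot] at this
      exact this
    refine ⟨1, fun _ => 1, one_pos, fun u _ F _ => ?_⟩
    have e : ∀ i : Fin 1, F ((fun _ : Fin 1 => (1 : G)) i * u) = F ((fun _ : Fin 1 => (1 : G)) i) :=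
      fun i => by rw [hs (_ * u), hs ((fun _ : Fin 1 => (1 : G)) i)]
    rw [Finset.sum_congr rfl (fun i _ => e i), sub_self, abs_zero]
    positivity
  | succ n ih =>
    intro G _ h
    refine hex G (Abelianization G) Abelianization.of ?_ (hcm (Abelianization G)) ?_
    · intro q
      obtain ⟨g, hg⟩ := QuotientGroup.mk_surjective q
      exact ⟨g, hg⟩
    · apply ih
      have h1 := map_ker_le G n
      rw [h, le_bot_iff, Subgroup.map_eq_bot_iff_of_injective _ (Subgroup.subtype_injective _)] at h1
      exact h1

/-- **FSV**. -/
theorem fsv : FsvStmt := by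
  intro hcm hex G _ hG
  obtain ⟨n, hn⟩ := hG.solvable
  exact fam_of_series hcm hex n G hn

end Pool.Agent.QSX.H15
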