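import Pool.Agent.QSX.StmtsB

/-!
# Squad QSX, row TRA
-/

set_option autoImplicit false

namespace Pool.Agent.QSX.H15

theorem Sm_neg {S : Scale} {z : ℕ → ℝ} (hz : S.Sm z) : S.Sm (fun s => -z s) := by
  obtain ⟨c, hc, h⟩ := hz
  refine ⟨c, hc, ?_⟩
  filter_upwards [h] with s hs
  rw [abs_neg]
  exact hs

/-- A polynomial vanishes at the classes iff its values are small. -/
theorem aeval_iff {S : Scale} {σ : Type} (z : σ → S.OO) (c : σ → S.FF)
    (hz : ∀ i, Ideal.Quotient.mk S.mm (z i) = c i) (p : MvPolynomial σ ℝ) :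
    MvPolynomial.aeval c p = 0 ↔
      S.Sm (fun s => MvPolynomial.eval (fun i => (z i : ℕ → ℝ) s) p) := by
  have h1 : MvPolynomial.aeval c p = Ideal.Quotient.mk S.mm (MvPolynomial.aeval z p) := by
    have h2 := MvPolynomial.comp_aeval_apply (R := ℝ) z (Ideal.Quotient.mkₐ ℝ S.mm) p
    rw [Ideal.Quotient.mkₐ_eq_mk] at h2
    rw [h2]
    have h3 : c = fun i => Ideal.Quotient.mk S.mm (z i) := funext fun i => (hz i).symm
    rw [h3]
  have h4 : ((MvPolynomial.aeval z p : S.OO) : ℕ → ℝ) =
      fun s => MvPolynomial.eval (fun i => (z i : ℕ → ℝ) s) p := by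
    funext s
    have h5 := MvPolynomial.comp_aeval_apply (R := ℝ) z
      ((Pi.evalAlgHom ℝ (fun _ : ℕ => ℝ) s).comp S.OO.val) p
    exact h5
  rw [h1, Ideal.Quotient.eq_zero_iff_mem]
  change S.Sm ((MvPolynomial.aeval z p : S.OO) : ℕ → ℝ) ↔ _
  rw [h4]

/-- **TRA**. -/
theorem tra (hL : LmtStmt) (hS : SmpStmt) : TraStmt := by
  intro S σ _ c E N hE hN
  have hz : ∀ i, ∃ w : S.OO, Ideal.Quotient.mk S.mm w = c i :=
    fun i => Ideal.Quotient.mk_surjective (c i)
  choose z hz using hz
  set e := Fintype.equivFin σ with he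
  set d : Fin (Fintype.card σ) → ℕ → ℝ := fun j => (z (e.symm j) : ℕ → ℝ) with hd
  have hdm : ∀ j, S.Md (d j) := fun j => (z (e.symm j)).2
  obtain ⟨c', hc', hp⟩ := hL S (Fintype.card σ) d hdm
  have hev : ∀ (p : MvPolynomial σ ℝ) (s : ℕ),
      MvPolynomial.eval (fun j => d j s) (MvPolynomial.rename e p) =
        MvPolynomial.eval (fun i => (z i : ℕ → ℝ) s) p := by
    intro p s
    rw [MvPolynomial.eval_rename]
    have : (fun j => d j s) ∘ e = fun i => (z i : ℕ → ℝ) s := by
      funext i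
      simp only [Function.comp_apply, hd, Equiv.symm_apply_apply]
    rw [this]
  have hEv : ∀ p ∈ E, ∀ᶠ s in (S.ω : Filter ℕ),
      MvPolynomial.eval (fun j => c' j s) (MvPolynomial.rename e p) = 0 := by
    intro p hpE
    apply hp
    simp only [hev]
    exact (aeval_iff z c hz p).1 (hE p hpE)
  have hNv : ∀ p ∈ N, ∀ᶠ s in (S.ω : Filter ℕ),
      MvPolynomial.eval (fun j => c' j s) (MvPolynomial.rename e p) ≠ 0 := by
    intro p hpN
    apply S.ne_zero_ev (z := fun s => MvPolynomial.eval (fun j => c' j s) (MvPolynomial.rename e p))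
    intro hsm
    apply hN p hpN
    rw [aeval_iff z c hz p]
    have h1 := (hS S (Fintype.card σ) d c' hdm hc' (MvPolynomial.rename e p)).2
    have h2 := Scale.Sm.add hsm (Sm_neg h1)
    have h3 : (fun s => MvPolynomial.eval (fun j => c' j s) (MvPolynomial.rename e p)) +
        (fun s => -(MvPolynomial.eval (fun j => c' j s) (MvPolynomial.rename e p) -
          MvPolynomial.eval (fun j => d j s) (MvPolynomial.rename e p))) =
        fun s => MvPolynomial.eval (fun i => (z i : ℕ → ℝ) s) p := by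
      funext s
      rw [Pi.add_apply, ← hev p s]
      ring
    rw [h3] at h2
    exact h2
  have hall := ((Filter.eventually_all_finset E).2 hEv).and ((Filter.eventually_all_finset N).2 hNv)
  obtain ⟨s, hs1, hs2⟩ := hall.exists
  have hx : ∀ p : MvPolynomial σ ℝ, MvPolynomial.eval (fun i => c' (e i) s) p =
      MvPolynomial.eval (fun j => c' j s) (MvPolynomial.rename e p) := by
    intro p
    rw [MvPolynomial.eval_rename]
    rfl
  refine ⟨fun i => c' (e i) s, fun p hpE => ?_, fun p hpN => ?_⟩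
  · rw [hx]; exact hs1 p hpE
  · rw [hx]; exact hs2 p hpN

end Pool.Agent.QSX.H15
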